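import Pool.Agent.V11230.LFree3

/-!
# Finding large solution-free subsets is strongly NP-hard for every equation

For every equation `a_1 x_1 + … + a_ℓ x_ℓ = b y` with positive integer coefficients and `ℓ ≥ 2` the
problem whether a given finite set `A` of integers contains a solution-free subset with at least `k`
elements is NP-hard already for sets `A` of integers which are polynomially bounded in `|A|`.

The reduction is from vertex cover.  There is a number `x_v` for every vertex, and for every edge
`u v` there are numbers `D_3, …, D_ℓ` and a number `y` with `a_1 x_u + a_2 x_v + ∑ a_i D_i = b y`.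
The free numbers are `b (1 + t Q + (t Q) ^ 2 + … + (t Q) ^ (k - 1))` for `t = 1, 2, …`, where
`k = (ℓ + 1) ℓ` and `Q` is a polynomial in the number of free numbers.  By the uniqueness of digits
and Vandermonde's determinant there is no linear relation with small coefficients between `k` of
them, and it follows that the non-trivial solutions in the set `A` are only those which use exactly
all numbers of an edge.
-/

namespace Pool.Agent.Results.MP_f29e3e_lc.StrongHardness

open Pool.Agent.NPC Pool.Agent.NPC.V11230.LF

/-- **Strong NP-hardness for every equation.** -/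
theorem result {ℓ : ℕ} (hℓ : 2 ≤ ℓ) (a : Fin ℓ → ℕ) (ha : ∀ i, 0 < a i) (b : ℕ) (hb : 0 < b) :
    ∃ p : Polynomial ℕ, NPHardP (fun I : List ℤ × ℕ =>
      (∀ x ∈ I.1, |x| ≤ ((p.eval I.1.length : ℕ) : ℤ)) ∧ LFS (coef a b) I) :=
  ⟨bd a b, (hard hℓ ha hb).toNPHardP⟩

end Pool.Agent.Results.MP_f29e3e_lc.StrongHardness
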